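import Pool.Agent.H27.L1.H23.GHK.WTS

/-!
Board thn (MP_52e316_nt): the large sieve and the second moment of the Dirichlet polynomials and of the truncated
L-functions, with one Hecke operator, from a weighted inequality of Bessel. The families are abstract.
-/

set_option autoImplicit false

namespace Pool.Agent.H23.THN

open MeasureTheory Pool.Agent.H27.L1.H34.GM Pool.Agent.H27.L1.H34.GZ Pool.Agent.H27.L1.H34.GU Pool.Agent.H27.L1.H34.GA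
  Pool.Agent.H27.L1.H68.GHY

open Classical in
/-- the short sum over the eigenvalues -/
noncomputable def B1 (m : ℕ) (lam a : ℕ → ℂ) (y d x : ℝ) : ℂ :=
  ∑ k ∈ Finset.Icc 1 ⌊y ^ 2⌋₊, if wd x d k then tl m lam a k else 0

/-- the inequality of Bessel with the weights `W i`, on `DY D Y`, for one Hecke operator -/
def BES2 (m : ℕ) {ι : Type} [Fintype ι] (W : ι → ENNReal) (lam : ι → ℕ → ℂ) (N : ℕ) [NeZero N]
    (D : Set (V m)) (χ : ℝ → ℝ) (c δ Y : ℝ) : Prop :=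
  ∀ (y : ℝ) (a : ℕ → ℂ) (x0 : ℝ), 1 ≤ y → Coe (y ^ 2) a → 0 < x0 →
    ENNReal.ofReal (c * tb m χ δ ^ 2) * ∑ i, W i * ENNReal.ofReal (‖B1 m (lam i) a y δ x0‖ ^ 2) ≤
      ∫⁻ g in DY D Y, Ed N D δ y x0 (mt g) ∂(hm m)

/-- the large sieve for the short sums, with the weights `W i` -/
def LS2 (m : ℕ) (ε C : ℝ) (K : ℕ) {ι : Type} [Fintype ι] (W : ι → ENNReal) (lam : ι → ℕ → ℂ)
    (N : ℕ) (δ : ℝ) : Prop :=
  ∀ (y : ℝ) (a : ℕ → ℂ), 1 ≤ y → Coe (y ^ 2) a →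
    ∑ i, W i * ∫⁻ x0 in Set.Ioi (0 : ℝ), ENNReal.ofReal (‖B1 m (lam i) a y δ x0‖ ^ 2 * x0⁻¹) ≤
      ENNReal.ofReal (C * δ ^ 2 * δ⁻¹ ^ (m ^ 2) * (N : ℝ) ^ ((m : ℝ) + ε) *
        (1 + Real.log (y * N * δ⁻¹)) ^ K * y ^ (2 * m) * (1 + δ ^ m * y ^ 2 / N) ^ m)

/-- the second moment of the Dirichlet polynomials of length `y ^ 2`, with the weights `W i` -/
def LT2 (m : ℕ) (ε C : ℝ) (K : ℕ) {ι : Type} [Fintype ι] (W : ι → ENNReal) (lam : ι → ℕ → ℂ)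
    (N : ℕ) (δ : ℝ) : Prop :=
  ∀ (y : ℝ) (a : ℕ → ℂ), 1 ≤ y → Coe (y ^ 2) a →
    ∑ i, W i * ∫⁻ t in Set.Icc (-δ⁻¹) δ⁻¹, ENNReal.ofReal (‖DP m (lam i) a (y ^ 2) t‖ ^ 2) ≤
      ENNReal.ofReal (C * δ⁻¹ ^ (m ^ 2) * (N : ℝ) ^ ((m : ℝ) + ε) *
        (1 + Real.log (y * N * δ⁻¹)) ^ K * y ^ (2 * m) * (1 + δ ^ m * y ^ 2 / N) ^ m)

private lemma ls_sum {α ι : Type} [MeasurableSpace α] [DecidableEq ι] (μ : Measure α)
    (s : Finset ι) (f : ι → α → ENNReal) :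
    ∑ i ∈ s, ∫⁻ x, f i x ∂μ ≤ ∫⁻ x, ∑ i ∈ s, f i x ∂μ := by
  induction s using Finset.induction_on with
  | empty => simp
  | insert a s ha ih =>
    rw [Finset.sum_insert ha]
    have h1 : ∀ x, ∑ i ∈ insert a s, f i x = f a x + ∑ i ∈ s, f i x := fun x =>
      Finset.sum_insert ha
    simp only [h1]
    exact (add_le_add le_rfl ih).trans (le_lintegral_add _ _)

private lemma ls_log {CM Nr y di : ℝ} {A : ℕ} (hCM : 1 ≤ CM) (hN : 1 ≤ Nr) (hy : 1 ≤ y)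
    (hd : 2 ≤ di) :
    1 + Real.log (y * max 2 (CM * Nr * di ^ A) * Nr) ≤
      (Real.log (2 * CM) + A + 3) * (1 + Real.log (y * Nr * di)) := by
  have hd1 : (1 : ℝ) ≤ di := by linarith
  have hdA : (1 : ℝ) ≤ di ^ A := one_le_pow₀ hd1
  have h1 : max 2 (CM * Nr * di ^ A) ≤ 2 * CM * Nr * di ^ A := by
    have e1 : (1 : ℝ) ≤ CM * Nr * di ^ A := by
      have e2 : (1 : ℝ) ≤ CM * Nr := one_le_mul_of_one_le_of_one_le hCM hN
      exact one_le_mul_of_one_le_of_one_le e2 hdA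
    refine max_le ?_ ?_
    · nlinarith
    · nlinarith
  have hyN : (1 : ℝ) ≤ y * Nr := one_le_mul_of_one_le_of_one_le hy hN
  have hyNd : (1 : ℝ) ≤ y * Nr * di := one_le_mul_of_one_le_of_one_le hyN hd1
  have hL : 0 ≤ Real.log (y * Nr * di) := Real.log_nonneg hyNd
  have hM : 0 ≤ Real.log (2 * CM) := Real.log_nonneg (by linarith)
  have h2 : y * max 2 (CM * Nr * di ^ A) * Nr ≤ 2 * CM * (y * Nr * di) ^ (A + 2) := by
    have e1 : y * max 2 (CM * Nr * di ^ A) * Nr ≤ y * (2 * CM * Nr * di ^ A) * Nr := by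
      gcongr
    refine e1.trans ?_
    have e3 : Nr ≤ Nr ^ (A + 1) := le_self_pow₀ hN (by omega)
    have e4 : y ≤ y ^ (A + 2) := le_self_pow₀ hy (by omega)
    have e5 : di ^ A ≤ di ^ (A + 2) := pow_le_pow_right₀ hd1 (by omega)
    have e6 : y * (2 * CM * Nr * di ^ A) * Nr = 2 * CM * (y * (Nr * Nr) * di ^ A) := by ring
    have e7 : Nr * Nr ≤ Nr ^ (A + 2) := by
      calc Nr * Nr ≤ Nr ^ (A + 1) * Nr := by gcongr
        _ = Nr ^ (A + 2) := by ring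
    rw [e6, mul_pow, mul_pow]
    gcongr
  have h0 : 0 < y * max 2 (CM * Nr * di ^ A) * Nr := by positivity
  have h3 : Real.log (y * max 2 (CM * Nr * di ^ A) * Nr) ≤
      Real.log (2 * CM) + (A + 2) * Real.log (y * Nr * di) := by
    refine (Real.log_le_log h0 h2).trans ?_
    rw [Real.log_mul (by positivity) (by positivity), Real.log_pow]
    push_cast
    exact le_rfl
  have hA : (0 : ℝ) ≤ A := Nat.cast_nonneg A
  nlinarith [mul_nonneg hM hL, mul_nonneg hA hL]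

/-- the weighted large sieve from the weighted inequality of Bessel -/
theorem ls2_w (hENG : T_ENG) (hTBS : T_TBS) (m : ℕ) (hm1 : 1 ≤ m) (ε : ℝ) (hε : 0 < ε)
    (χ : ℝ → ℝ) (hχ : Prof χ) (cM CM : ℝ) (AM : ℕ) (hcM : 0 < cM) (hCM : 1 ≤ CM) :
    ∃ (C : ℝ) (K : ℕ), 0 < C ∧ ∀ (N : ℕ) [NeZero N] (D : Set (V m)), 1 ≤ N → DomZ m D →
    ∀ δ : ℝ, 0 < δ → δ ≤ 1 / 2 → ∀ (ι : Type) [Fintype ι] (W : ι → ENNReal) (lam : ι → ℕ → ℂ),
    (∀ i, W i ≠ ⊤) → (∀ Y : ℝ, 2 ≤ Y → CM * N * δ⁻¹ ^ AM ≤ Y → BES2 m W lam N D χ cM δ Y) →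
      LS2 m ε C K W lam N δ := by
  classical
  obtain ⟨CE, K, hCE, hE⟩ := hENG m hm1 ε hε
  obtain ⟨cT, CT, hcT, hCT, hTb⟩ := hTBS m χ hm1 hχ
  have hB : 0 < Real.log (2 * CM) + AM + 3 := by
    have := Real.log_nonneg (show (1 : ℝ) ≤ 2 * CM by linarith)
    positivity
  refine ⟨(cM * cT ^ 2)⁻¹ * CE * (Real.log (2 * CM) + AM + 3) ^ K, K, by positivity, ?_⟩
  intro N _ D hN2 hD δ hδ hδ2 ι _ W lam hWt hBes y a hy ha
  have hdi : (2 : ℝ) ≤ δ⁻¹ := by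
    rw [le_inv_comm₀ (by norm_num) hδ]
    linarith
  have hN1 : (1 : ℝ) ≤ N := by exact_mod_cast (by omega : 1 ≤ N)
  set Y : ℝ := max 2 (CM * N * δ⁻¹ ^ AM) with hY
  have hY2 : (2 : ℝ) ≤ Y := le_max_left _ _
  have hY1 : CM * N * δ⁻¹ ^ AM ≤ Y := le_max_right _ _
  set κ : ℝ := cM * (cT * δ ^ (m ^ 2 - 1)) ^ 2 with hκ
  have hκ0 : 0 < κ := by positivity
  have hκT : κ ≤ cM * tb m χ δ ^ 2 := by
    rw [hκ]
    have := (hTb δ hδ hδ2).1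
    gcongr
  -- the bound at each point
  have h1 : ∀ x0 : ℝ, 0 < x0 → ENNReal.ofReal κ *
      ∑ i, W i * ENNReal.ofReal (‖B1 m (lam i) a y δ x0‖ ^ 2 * x0⁻¹) ≤
      (∫⁻ g in DY D Y, Ed N D δ y x0 (mt g) ∂(hm m)) * ENNReal.ofReal x0⁻¹ := by
    intro x0 hx0
    have e1 := hBes Y hY2 hY1 y a x0 hy ha hx0
    have e2 : ENNReal.ofReal κ * ∑ i, W i * ENNReal.ofReal (‖B1 m (lam i) a y δ x0‖ ^ 2) ≤
        ENNReal.ofReal (cM * tb m χ δ ^ 2) *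
          ∑ i, W i * ENNReal.ofReal (‖B1 m (lam i) a y δ x0‖ ^ 2) :=
      mul_le_mul' (ENNReal.ofReal_le_ofReal hκT) le_rfl
    have e3 := e2.trans e1
    have e4 : ENNReal.ofReal κ * ∑ i, W i * ENNReal.ofReal (‖B1 m (lam i) a y δ x0‖ ^ 2 * x0⁻¹) =
        (ENNReal.ofReal κ * ∑ i, W i * ENNReal.ofReal (‖B1 m (lam i) a y δ x0‖ ^ 2)) *
          ENNReal.ofReal x0⁻¹ := by
      have e5 : ∀ i, W i * ENNReal.ofReal (‖B1 m (lam i) a y δ x0‖ ^ 2 * x0⁻¹) =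
          W i * ENNReal.ofReal (‖B1 m (lam i) a y δ x0‖ ^ 2) * ENNReal.ofReal x0⁻¹ := fun i => by
        rw [ENNReal.ofReal_mul (by positivity), mul_assoc]
      simp only [e5]
      rw [← Finset.sum_mul]
      ring
    rw [e4]
    exact mul_le_mul' e3 le_rfl
  -- integrate
  have h2 : ENNReal.ofReal κ * ∑ i, W i * ∫⁻ x0 in Set.Ioi (0 : ℝ),
      ENNReal.ofReal (‖B1 m (lam i) a y δ x0‖ ^ 2 * x0⁻¹) ≤
      ENNReal.ofReal (CE * δ ^ (m ^ 2) * (N : ℝ) ^ ((m : ℝ) + ε) *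
        (1 + Real.log (y * Y * N)) ^ K * y ^ (2 * m) * (1 + δ ^ m * y ^ 2 / N) ^ m) := by
    refine le_trans ?_ (hE N D hN2 hD y Y δ hy hY2 hδ hδ2)
    have h3 : ∀ i, W i * ∫⁻ x0 in Set.Ioi (0 : ℝ),
        ENNReal.ofReal (‖B1 m (lam i) a y δ x0‖ ^ 2 * x0⁻¹) = ∫⁻ x0 in Set.Ioi (0 : ℝ),
        W i * ENNReal.ofReal (‖B1 m (lam i) a y δ x0‖ ^ 2 * x0⁻¹) := fun i =>
      (lintegral_const_mul' _ _ (hWt i)).symm
    simp only [h3]
    refine (mul_le_mul' le_rfl (ls_sum _ Finset.univ _)).trans ?_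
    rw [← lintegral_const_mul' _ _ ENNReal.ofReal_ne_top]
    exact setLIntegral_mono' measurableSet_Ioi fun x0 hx0 => h1 x0 hx0
  set S : ENNReal := ∑ i, W i * ∫⁻ x0 in Set.Ioi (0 : ℝ),
      ENNReal.ofReal (‖B1 m (lam i) a y δ x0‖ ^ 2 * x0⁻¹) with hSdef
  have hk1 : ENNReal.ofReal κ ≠ 0 := by
    rw [Ne, ENNReal.ofReal_eq_zero, not_le]
    exact hκ0
  have h3 : S = ENNReal.ofReal κ⁻¹ * (ENNReal.ofReal κ * S) := by
    rw [ENNReal.ofReal_inv_of_pos hκ0, ← mul_assoc, ENNReal.inv_mul_cancel hk1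
      ENNReal.ofReal_ne_top, one_mul]
  rw [h3]
  refine (mul_le_mul' le_rfl h2).trans ?_
  rw [← ENNReal.ofReal_mul (by positivity)]
  apply ENNReal.ofReal_le_ofReal
  have hlog0 : 0 ≤ Real.log (y * N * δ⁻¹) := by
    apply Real.log_nonneg
    have e2 : (1 : ℝ) ≤ y * N := one_le_mul_of_one_le_of_one_le hy hN1
    exact one_le_mul_of_one_le_of_one_le e2 (by linarith)
  have h4 := ls_log (A := AM) hCM hN1 hy hdi
  rw [← hY] at h4
  have h5 : 0 ≤ 1 + Real.log (y * Y * N) := by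
    have e1 : (1 : ℝ) ≤ y * Y := one_le_mul_of_one_le_of_one_le hy (by linarith)
    have e2 : (1 : ℝ) ≤ y * Y * N := one_le_mul_of_one_le_of_one_le e1 hN1
    have := Real.log_nonneg e2
    linarith
  have h6 : (1 + Real.log (y * Y * N)) ^ K ≤
      (Real.log (2 * CM) + AM + 3) ^ K * (1 + Real.log (y * N * δ⁻¹)) ^ K := by
    rw [← mul_pow]
    exact pow_le_pow_left₀ h5 h4 K
  have h7 : κ⁻¹ * δ ^ (m ^ 2) = (cM * cT ^ 2)⁻¹ * (δ ^ 2 * δ⁻¹ ^ (m ^ 2)) := by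
    rw [hκ]
    have hm2 : 1 ≤ m ^ 2 := Nat.one_le_pow _ _ (by omega)
    obtain ⟨n, hn⟩ : ∃ n, m ^ 2 = n + 1 := ⟨m ^ 2 - 1, by omega⟩
    rw [hn, Nat.add_sub_cancel, inv_pow]
    field_simp
    ring
  have hX : 0 ≤ (N : ℝ) ^ ((m : ℝ) + ε) := by positivity
  calc κ⁻¹ * (CE * δ ^ (m ^ 2) * (N : ℝ) ^ ((m : ℝ) + ε) *
        (1 + Real.log (y * Y * N)) ^ K * y ^ (2 * m) * (1 + δ ^ m * y ^ 2 / N) ^ m)
      = (κ⁻¹ * δ ^ (m ^ 2)) * (CE * (N : ℝ) ^ ((m : ℝ) + ε) * y ^ (2 * m) *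
        (1 + δ ^ m * y ^ 2 / N) ^ m) * (1 + Real.log (y * Y * N)) ^ K := by ring
    _ ≤ (κ⁻¹ * δ ^ (m ^ 2)) * (CE * (N : ℝ) ^ ((m : ℝ) + ε) * y ^ (2 * m) *
        (1 + δ ^ m * y ^ 2 / N) ^ m) *
          ((Real.log (2 * CM) + AM + 3) ^ K * (1 + Real.log (y * N * δ⁻¹)) ^ K) := by
        have : 0 ≤ (κ⁻¹ * δ ^ (m ^ 2)) * (CE * (N : ℝ) ^ ((m : ℝ) + ε) * y ^ (2 * m) *
            (1 + δ ^ m * y ^ 2 / N) ^ m) := by positivity
        exact mul_le_mul_of_nonneg_left h6 this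
    _ = _ := by
        rw [h7]
        ring

/-- the second moment of the Dirichlet polynomials from the large sieve -/
theorem lt2_w (hG : T_GAL) (m : ℕ) : ∃ C' : ℝ, 0 < C' ∧
    ∀ (ε C : ℝ) (K : ℕ) (ι : Type) [Fintype ι] (W : ι → ENNReal) (lam : ι → ℕ → ℂ) (N : ℕ)
      (δ : ℝ), 0 < δ → δ ≤ 1 / 2 → LS2 m ε C K W lam N δ →
      LT2 m ε (C' * C) K W lam N δ := by
  obtain ⟨C', hC', hg⟩ := hG
  refine ⟨C', hC', ?_⟩
  intro ε C K ι _ W lam N δ hδ hδ1 h y a hy ha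
  have h0 := h y a hy ha
  have h1 : ∀ i, ∫⁻ t in Set.Icc (-δ⁻¹) δ⁻¹, ENNReal.ofReal (‖DP m (lam i) a (y ^ 2) t‖ ^ 2) ≤
      ENNReal.ofReal (C' * δ⁻¹ ^ 2) *
        ∫⁻ x0 in Set.Ioi (0 : ℝ), ENNReal.ofReal (‖B1 m (lam i) a y δ x0‖ ^ 2 * x0⁻¹) := by
    intro i
    exact hg δ hδ hδ1 ⌊y ^ 2⌋₊ (tl m (lam i) a)
  calc ∑ i, W i * ∫⁻ t in Set.Icc (-δ⁻¹) δ⁻¹, ENNReal.ofReal (‖DP m (lam i) a (y ^ 2) t‖ ^ 2)
      ≤ ∑ i, W i * (ENNReal.ofReal (C' * δ⁻¹ ^ 2) *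
        ∫⁻ x0 in Set.Ioi (0 : ℝ), ENNReal.ofReal (‖B1 m (lam i) a y δ x0‖ ^ 2 * x0⁻¹)) :=
        Finset.sum_le_sum fun i _ => mul_le_mul' le_rfl (h1 i)
    _ = ENNReal.ofReal (C' * δ⁻¹ ^ 2) * ∑ i, W i *
        ∫⁻ x0 in Set.Ioi (0 : ℝ), ENNReal.ofReal (‖B1 m (lam i) a y δ x0‖ ^ 2 * x0⁻¹) := by
        rw [Finset.mul_sum]
        refine Finset.sum_congr rfl fun i _ => ?_
        ring
    _ ≤ ENNReal.ofReal (C' * δ⁻¹ ^ 2) * ENNReal.ofReal (C * δ ^ 2 * δ⁻¹ ^ (m ^ 2) *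
        (N : ℝ) ^ ((m : ℝ) + ε) *
        (1 + Real.log (y * N * δ⁻¹)) ^ K * y ^ (2 * m) * (1 + δ ^ m * y ^ 2 / N) ^ m) := by
        gcongr
    _ = ENNReal.ofReal (C' * C * δ⁻¹ ^ (m ^ 2) * (N : ℝ) ^ ((m : ℝ) + ε) *
        (1 + Real.log (y * N * δ⁻¹)) ^ K * y ^ (2 * m) * (1 + δ ^ m * y ^ 2 / N) ^ m) := by
        rw [← ENNReal.ofReal_mul (by positivity)]
        congr 1
        have e2 : δ⁻¹ ^ 2 * δ ^ 2 = 1 := by
          rw [← mul_pow, inv_mul_cancel₀ hδ.ne', one_pow]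
        calc _ = (δ⁻¹ ^ 2 * δ ^ 2) * (C' * C * δ⁻¹ ^ (m ^ 2) * (N : ℝ) ^ ((m : ℝ) + ε) *
            (1 + Real.log (y * N * δ⁻¹)) ^ K * y ^ (2 * m) * (1 + δ ^ m * y ^ 2 / N) ^ m) := by ring
          _ = _ := by rw [e2, one_mul]

/-- elementary form of the final bound -/
lemma fin2 (m K : ℕ) {ε : ℝ} (hε : 0 < ε) :
    ∃ C : ℝ, 0 < C ∧ ∀ (Nr d X Ml : ℝ), 1 ≤ Nr → 2 ≤ d → 1 ≤ X →
      0 ≤ Ml → Ml ≤ 2 * (1 + Real.log X) →
      Ml ^ 2 * (d ^ (m ^ 2) * Nr ^ ((m : ℝ) + ε) * ((1 + Real.log (X * Nr * d)) ^ K *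
        (1 + d⁻¹ ^ m * X / Nr) ^ m)) ≤
        C * (Nr * d * X) ^ (2 * ε) * (Nr ^ m * d ^ (m ^ 2) + X ^ m) := by
  obtain ⟨C1, hC1, hlog⟩ := Pool.Agent.H27.L1.H37.GHY.log_pow_le (K + 2) hε
  refine ⟨4 * C1 * 2 ^ m, by positivity, ?_⟩
  intro Nr d X Ml hN hd hX hM0 hM
  have hN0 : 0 < Nr := by linarith
  have hd0 : 0 < d := by linarith
  have hX0 : 0 < X := by linarith
  have hz : 1 ≤ Nr * d * X := by
    have h1 : 1 ≤ Nr * d := by nlinarith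
    nlinarith
  have hz0 : 0 < Nr * d * X := by linarith
  have hXz : X ≤ Nr * d * X := by
    have h1 : 1 ≤ Nr * d := by nlinarith
    nlinarith
  have e0 : X * Nr * d = Nr * d * X := by ring
  rw [e0]
  obtain ⟨l, hl⟩ : ∃ l : ℝ, l = 1 + Real.log (Nr * d * X) := ⟨_, rfl⟩
  have hl1 : 1 ≤ l := by
    rw [hl]
    have := Real.log_nonneg hz
    linarith
  have h1 : Ml ^ 2 ≤ 4 * l ^ 2 := by
    have h2 : Ml ≤ 2 * l := by
      refine hM.trans ?_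
      rw [hl]
      have := Real.log_le_log hX0 hXz
      linarith
    calc Ml ^ 2 ≤ (2 * l) ^ 2 := pow_le_pow_left₀ hM0 h2 2
      _ = 4 * l ^ 2 := by ring
  have h2 : Ml ^ 2 * l ^ K ≤ 4 * C1 * (Nr * d * X) ^ ε := by
    calc Ml ^ 2 * l ^ K ≤ 4 * l ^ 2 * l ^ K := mul_le_mul_of_nonneg_right h1 (by positivity)
      _ = 4 * l ^ (K + 2) := by ring
      _ ≤ 4 * (C1 * (Nr * d * X) ^ ε) := by
          rw [hl]
          exact mul_le_mul_of_nonneg_left (hlog _ hz) (by norm_num)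
      _ = _ := by ring
  have h3 : Nr ^ ((m : ℝ) + ε) ≤ Nr ^ m * (Nr * d * X) ^ ε := by
    rw [Real.rpow_add hN0, Real.rpow_natCast]
    refine mul_le_mul_of_nonneg_left ?_ (by positivity)
    refine Real.rpow_le_rpow hN0.le ?_ hε.le
    have h4 : 1 ≤ d * X := by nlinarith
    nlinarith
  have h4 : d ^ (m ^ 2) * Nr ^ m * (1 + d⁻¹ ^ m * X / Nr) ^ m ≤
      2 ^ m * (Nr ^ m * d ^ (m ^ 2) + X ^ m) := by
    have h5 : d ^ (m ^ 2) * Nr ^ m * (1 + d⁻¹ ^ m * X / Nr) ^ m = (d ^ m * Nr + X) ^ m := by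
      have h6 : d ^ m * Nr + X = d ^ m * Nr * (1 + d⁻¹ ^ m * X / Nr) := by
        rw [inv_pow]
        field_simp
      rw [h6, mul_pow (d ^ m * Nr), mul_pow (d ^ m), ← pow_mul, ← pow_two]
    rw [h5]
    have h7 : (d ^ m * Nr + X) ^ m ≤ (2 * max (d ^ m * Nr) X) ^ m := by
      refine pow_le_pow_left₀ (by positivity) ?_ m
      have := le_max_left (d ^ m * Nr) X
      have := le_max_right (d ^ m * Nr) X
      linarith
    refine h7.trans ?_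
    rw [mul_pow]
    refine mul_le_mul_of_nonneg_left ?_ (by positivity)
    rcases max_cases (d ^ m * Nr) X with ⟨h8, -⟩ | ⟨h8, -⟩
    · rw [h8, mul_pow, ← pow_mul, ← pow_two]
      have : 0 ≤ X ^ m := by positivity
      linarith [mul_comm (d ^ m ^ 2) (Nr ^ m)]
    · rw [h8]
      have : 0 ≤ Nr ^ m * d ^ (m ^ 2) := by positivity
      linarith
  have h5 : 0 ≤ (1 + d⁻¹ ^ m * X / Nr) ^ m := by positivity
  rw [← hl]
  calc Ml ^ 2 * (d ^ (m ^ 2) * Nr ^ ((m : ℝ) + ε) * (l ^ K * (1 + d⁻¹ ^ m * X / Nr) ^ m))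
      = (Ml ^ 2 * l ^ K) * (Nr ^ ((m : ℝ) + ε) * (d ^ (m ^ 2) * (1 + d⁻¹ ^ m * X / Nr) ^ m)) := by
        ring
    _ ≤ (4 * C1 * (Nr * d * X) ^ ε) * ((Nr ^ m * (Nr * d * X) ^ ε) *
        (d ^ (m ^ 2) * (1 + d⁻¹ ^ m * X / Nr) ^ m)) := by
        refine mul_le_mul h2 ?_ (by positivity) (by positivity)
        exact mul_le_mul_of_nonneg_right h3 (by positivity)
    _ = 4 * C1 * ((Nr * d * X) ^ ε * (Nr * d * X) ^ ε) *
        (d ^ (m ^ 2) * Nr ^ m * (1 + d⁻¹ ^ m * X / Nr) ^ m) := by ring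
    _ ≤ 4 * C1 * ((Nr * d * X) ^ ε * (Nr * d * X) ^ ε) *
        (2 ^ m * (Nr ^ m * d ^ (m ^ 2) + X ^ m)) :=
        mul_le_mul_of_nonneg_left h4 (by positivity)
    _ = 4 * C1 * 2 ^ m * (Nr * d * X) ^ (2 * ε) * (Nr ^ m * d ^ (m ^ 2) + X ^ m) := by
        rw [← Real.rpow_add hz0, show ε + ε = 2 * ε by ring]
        ring

open Pool.Agent.H27.L1.H11.GHY in
/-- the second moment of the truncated L-functions -/
theorem dy2_w (m : ℕ) (ε : ℝ) (hε : 0 < ε) (C : ℝ) (hC : 0 < C) (K : ℕ) :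
    ∃ C3 : ℝ, 0 < C3 ∧ ∀ (ι : Type) [Fintype ι] (W : ι → ENNReal) (lam : ι → ℕ → ℂ) (N : ℕ)
      (δ : ℝ), 1 ≤ N → 0 < δ → δ ≤ 1 / 2 → (∀ i, W i ≠ ⊤) → LT2 m ε C K W lam N δ →
      ∀ X : ℝ, 1 ≤ X → ∀ τ : ℝ,
        ∑ i, W i * ∫⁻ t in Set.Icc (-δ⁻¹) δ⁻¹, ENNReal.ofReal (‖SD (lam i) X (t + τ)‖ ^ 2) ≤
          ENNReal.ofReal (C3 * ((N : ℝ) * δ⁻¹ * X) ^ (2 * ε) *
            ((N : ℝ) ^ m * δ⁻¹ ^ (m ^ 2) + X ^ m)) := by
  obtain ⟨C2, hC2, hfin⟩ := fin2 m K hε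
  refine ⟨2 ^ m * C * C2, by positivity, ?_⟩
  intro ι _ W lam N δ hN2' hδ0 hδ1 hWt hlt X hX1 τ
  obtain ⟨M, hM1, hM2, hM3⟩ := blocks hX1
  have hd0 : 0 < δ⁻¹ := inv_pos.2 hδ0
  have hd2 : 2 ≤ δ⁻¹ := by
    rw [le_inv_comm₀ (by norm_num) hδ0]
    rw [one_div] at hδ1
    exact hδ1
  have hN2 : (1 : ℝ) ≤ N := by exact_mod_cast hN2'
  have hN0 : (0 : ℝ) < N := by linarith
  have hX0 : 0 < X := by linarith
  have hNd : 1 ≤ (N : ℝ) * δ⁻¹ := by nlinarith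
  set Wt : ℝ := C * δ⁻¹ ^ (m ^ 2) * (N : ℝ) ^ ((m : ℝ) + ε) *
    ((1 + Real.log (X * N * δ⁻¹)) ^ K * (1 + δ ^ m * X / N) ^ m) with hWd
  let y : ℕ → ℝ := fun j => X / 2 ^ j
  have hy1 : ∀ j < M, 1 ≤ y j := by
    intro j hj
    show 1 ≤ X / 2 ^ j
    rw [le_div_iff₀ (by positivity), one_mul]
    exact hM2 j hj
  have hyX : ∀ j, y j ≤ X := fun j => div_le_self hX0.le (one_le_pow₀ one_le_two)
  have hlog : ∀ z : ℝ, 1 ≤ z → 0 ≤ Real.log (z * N * δ⁻¹) := by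
    intro z hz
    apply Real.log_nonneg
    rw [mul_assoc]
    nlinarith
  have hW0 : 0 ≤ Wt := by
    have := hlog X hX1
    positivity
  let G : ι → ℕ → ℝ → ENNReal := fun i j t =>
    ENNReal.ofReal (‖DP m (lam i) (blk m τ (y j)) (y j) t‖ ^ 2)
  have hG : ∀ i j, Measurable (G i j) := by
    intro i j
    exact ((cont_DP m (lam i) (blk m τ (y j)) (y j)).norm.pow 2).measurable.ennreal_ofReal
  have hb : ∀ j < M, ∑ i, W i * ∫⁻ t in Set.Icc (-δ⁻¹) δ⁻¹, G i j t ≤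
      ENNReal.ofReal (Wt * y j ^ m) := by
    intro j hj
    have hyj := hy1 j hj
    have hyj0 : 0 < y j := by linarith
    have hsq : Real.sqrt (y j) ^ 2 = y j := Real.sq_sqrt hyj0.le
    have hs1 : 1 ≤ Real.sqrt (y j) := by
      rw [Real.one_le_sqrt]
      exact hyj
    have h0 := hlt (Real.sqrt (y j)) (blk m τ (y j)) hs1 (by
      rw [hsq]
      exact coe_blk m τ hyj)
    rw [hsq] at h0
    refine h0.trans (ENNReal.ofReal_le_ofReal ?_)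
    have h1 : 0 ≤ Real.log (Real.sqrt (y j) * N * δ⁻¹) := hlog _ hs1
    have hsX : Real.sqrt (y j) ≤ X := by
      refine le_trans ?_ (hyX j)
      nlinarith
    have h2 : Real.log (Real.sqrt (y j) * N * δ⁻¹) ≤ Real.log (X * N * δ⁻¹) := by
      have : 0 < Real.sqrt (y j) := by linarith
      apply Real.log_le_log (by positivity)
      gcongr
    have h3 : (1 + Real.log (Real.sqrt (y j) * N * δ⁻¹)) ^ K ≤ (1 + Real.log (X * N * δ⁻¹)) ^ K :=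
      pow_le_pow_left₀ (by linarith) (by linarith) K
    have h4 : (1 + δ ^ m * y j / N) ^ m ≤ (1 + δ ^ m * X / N) ^ m := by
      have := hyX j
      gcongr
    have h5 : (1 + Real.log (Real.sqrt (y j) * N * δ⁻¹)) ^ K * (1 + δ ^ m * y j / N) ^ m ≤
        (1 + Real.log (X * N * δ⁻¹)) ^ K * (1 + δ ^ m * X / N) ^ m := by
      refine mul_le_mul h3 h4 (by positivity) ?_
      have := hlog X hX1
      positivity
    have h6 : Real.sqrt (y j) ^ (2 * m) = y j ^ m := by rw [pow_mul, hsq]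
    calc C * δ⁻¹ ^ (m ^ 2) * (N : ℝ) ^ ((m : ℝ) + ε) *
          (1 + Real.log (Real.sqrt (y j) * N * δ⁻¹)) ^ K *
          Real.sqrt (y j) ^ (2 * m) * (1 + δ ^ m * y j / N) ^ m
        = C * δ⁻¹ ^ (m ^ 2) * (N : ℝ) ^ ((m : ℝ) + ε) *
          ((1 + Real.log (Real.sqrt (y j) * N * δ⁻¹)) ^ K * (1 + δ ^ m * y j / N) ^ m) *
            y j ^ m := by
          rw [h6]
          ring
      _ ≤ Wt * y j ^ m := by
        refine mul_le_mul_of_nonneg_right ?_ (by positivity)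
        exact mul_le_mul_of_nonneg_left h5 (by positivity)
  let cj : ℕ → ℝ := fun j => (y j / 2) ^ (-((m : ℝ) / 2))
  have hcj0 : ∀ j < M, 0 ≤ cj j := by
    intro j hj
    have := hy1 j hj
    exact Real.rpow_nonneg (by linarith) _
  have hcy : ∀ j < M, cj j ^ 2 * y j ^ m = 2 ^ m := by
    intro j hj
    have hyj : 0 < y j := by
      have := hy1 j hj
      linarith
    have h1 : cj j ^ 2 = ((y j / 2) ^ m)⁻¹ := by
      show ((y j / 2) ^ (-((m : ℝ) / 2))) ^ 2 = _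
      rw [← Real.rpow_natCast, ← Real.rpow_mul (by positivity), ← Real.rpow_natCast,
        ← Real.rpow_neg (by positivity)]
      congr 1
      push_cast
      ring
    rw [h1, div_pow, inv_div]
    have : y j ^ m ≠ 0 := (pow_pos hyj _).ne'
    field_simp
  have hpt : ∀ i t, ENNReal.ofReal (‖SD (lam i) X (t + τ)‖ ^ 2) ≤
      ∑ j ∈ Finset.range M, ENNReal.ofReal ((M : ℝ) * cj j ^ 2) * G i j t := by
    intro i t
    have h1 : SD (lam i) X (t + τ) = ∑ j ∈ Finset.range M,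
        ((cj j : ℝ) : ℂ) * DP m (lam i) (blk m τ (y j)) (y j) t := by
      unfold SD
      rw [steps' (fun n => lam i n * (n : ℂ) ^ (-(1 / 2 + ((t + τ : ℝ) : ℂ) * Complex.I)))
        hX0.le hM1]
      refine Finset.sum_congr rfl fun j hj => ?_
      exact block m (lam i) τ t (hy1 j (Finset.mem_range.1 hj))
    have h2 : ‖SD (lam i) X (t + τ)‖ ≤ ∑ j ∈ Finset.range M,
        cj j * ‖DP m (lam i) (blk m τ (y j)) (y j) t‖ := by
      rw [h1]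
      refine (norm_sum_le _ _).trans (le_of_eq ?_)
      refine Finset.sum_congr rfl fun j hj => ?_
      rw [norm_mul, Complex.norm_real, Real.norm_eq_abs,
        abs_of_nonneg (hcj0 j (Finset.mem_range.1 hj))]
    have h3 : ‖SD (lam i) X (t + τ)‖ ^ 2 ≤ ∑ j ∈ Finset.range M,
        ((M : ℝ) * cj j ^ 2) * ‖DP m (lam i) (blk m τ (y j)) (y j) t‖ ^ 2 := by
      have h4 := pow_sum_le_card_mul_sum_pow (s := Finset.range M)
        (f := fun j => cj j * ‖DP m (lam i) (blk m τ (y j)) (y j) t‖)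
        (fun j hj => mul_nonneg (hcj0 j (Finset.mem_range.1 hj)) (norm_nonneg _)) 1
      rw [Finset.card_range] at h4
      refine (pow_le_pow_left₀ (norm_nonneg _) h2 2).trans (h4.trans (le_of_eq ?_))
      rw [Finset.mul_sum]
      refine Finset.sum_congr rfl fun j _ => ?_
      ring
    refine (ENNReal.ofReal_le_ofReal h3).trans (le_of_eq ?_)
    rw [ENNReal.ofReal_sum_of_nonneg]
    · refine Finset.sum_congr rfl fun j _ => ?_
      rw [ENNReal.ofReal_mul (by positivity)]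
    · intro j _
      positivity
  calc ∑ i, W i * ∫⁻ t in Set.Icc (-δ⁻¹) δ⁻¹, ENNReal.ofReal (‖SD (lam i) X (t + τ)‖ ^ 2)
      ≤ ∑ i, W i * ∫⁻ t in Set.Icc (-δ⁻¹) δ⁻¹, ∑ j ∈ Finset.range M,
          ENNReal.ofReal ((M : ℝ) * cj j ^ 2) * G i j t :=
        Finset.sum_le_sum fun i _ => mul_le_mul' le_rfl (lintegral_mono fun t => hpt i t)
    _ = ∑ i, ∑ j ∈ Finset.range M, ENNReal.ofReal ((M : ℝ) * cj j ^ 2) *
          (W i * ∫⁻ t in Set.Icc (-δ⁻¹) δ⁻¹, G i j t) := by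
        refine Finset.sum_congr rfl fun i _ => ?_
        rw [lintegral_finsetSum _ fun j _ => (hG i j).const_mul _, Finset.mul_sum]
        refine Finset.sum_congr rfl fun j _ => ?_
        rw [lintegral_const_mul' _ _ ENNReal.ofReal_ne_top]
        ring
    _ = ∑ j ∈ Finset.range M, ENNReal.ofReal ((M : ℝ) * cj j ^ 2) *
          ∑ i, W i * ∫⁻ t in Set.Icc (-δ⁻¹) δ⁻¹, G i j t := by
        rw [Finset.sum_comm]
        refine Finset.sum_congr rfl fun j _ => ?_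
        rw [Finset.mul_sum]
    _ ≤ ∑ j ∈ Finset.range M, ENNReal.ofReal ((M : ℝ) * cj j ^ 2) *
          ENNReal.ofReal (Wt * y j ^ m) :=
        Finset.sum_le_sum fun j hj => mul_le_mul' le_rfl (hb j (Finset.mem_range.1 hj))
    _ = ∑ j ∈ Finset.range M, ENNReal.ofReal ((M : ℝ) * 2 ^ m * Wt) := by
        refine Finset.sum_congr rfl fun j hj => ?_
        rw [← ENNReal.ofReal_mul (by positivity)]
        congr 1
        rw [← hcy j (Finset.mem_range.1 hj)]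
        ring
    _ = ENNReal.ofReal ((M : ℝ) ^ 2 * 2 ^ m * Wt) := by
        rw [Finset.sum_const, Finset.card_range, nsmul_eq_mul, ← ENNReal.ofReal_natCast,
          ← ENNReal.ofReal_mul (by positivity)]
        congr 1
        ring
    _ ≤ ENNReal.ofReal (2 ^ m * C * C2 * ((N : ℝ) * δ⁻¹ * X) ^ (2 * ε) *
          ((N : ℝ) ^ m * δ⁻¹ ^ (m ^ 2) + X ^ m)) := by
        apply ENNReal.ofReal_le_ofReal
        have h1 := hfin N δ⁻¹ X M hN2 hd2 hX1 (Nat.cast_nonneg _) hM3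
        rw [inv_inv] at h1
        calc (M : ℝ) ^ 2 * 2 ^ m * Wt
            = 2 ^ m * C * ((M : ℝ) ^ 2 * (δ⁻¹ ^ (m ^ 2) * (N : ℝ) ^ ((m : ℝ) + ε) *
              ((1 + Real.log (X * N * δ⁻¹)) ^ K * (1 + δ ^ m * X / N) ^ m))) := by
              rw [hWd]
              ring
          _ ≤ 2 ^ m * C * (C2 * ((N : ℝ) * δ⁻¹ * X) ^ (2 * ε) *
              ((N : ℝ) ^ m * δ⁻¹ ^ (m ^ 2) + X ^ m)) :=
              mul_le_mul_of_nonneg_left h1 (by positivity)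
          _ = _ := by ring

end Pool.Agent.H23.THN
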