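import Pool.Agent.H47.THN.Targets
import Pool.Agent.H23.THN.W2

/-!
Board thn (MP_52e316_nt), rows LS1 and DY1: the large sieve from the inequality of Bessel, and the mean
square of the truncated L-functions from that of the Dirichlet polynomials.
-/

set_option autoImplicit false

namespace Pool.Agent.H23.THN

open MeasureTheory Pool.Agent.H27.L1.H34.GM Pool.Agent.H27.L1.H34.GZ Pool.Agent.H27.L1.H34.GU Pool.Agent.H27.L1.H34.GA
  Pool.Agent.H27.L1.H68.GHY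

/-- the large sieve from the inequality of Bessel -/
theorem pf_LS1 (hENG : T_ENG) (hTBS : T_TBS) : Pool.Agent.H47.THN.T_LS1 := by
  intro m hm1 ε hε χ hχ cM CM AM hcM hCM
  obtain ⟨C, K, hC, h⟩ := ls2_w hENG hTBS m hm1 ε hε χ hχ cM CM AM hcM hCM
  refine ⟨C, K, hC, ?_⟩
  intro N _ D hN hD δ hδ hδ2 ι _ W lam hWt hBes
  have h1 : ∀ Y : ℝ, 2 ≤ Y → CM * N * δ⁻¹ ^ AM ≤ Y → BES2 m W lam N D χ cM δ Y := by
    intro Y hY hY1 y a x0 hy ha hx0
    have hy0 : 0 ≤ y := by linarith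
    have h2 := hBes Y hY hY1 (y ^ 2) a x0 (one_le_pow₀ hy) ha hx0
    rw [Real.sqrt_sq hy0] at h2
    exact h2
  have h3 := h N D hN hD δ hδ hδ2 ι W lam hWt h1
  intro y a hy ha
  have hy0 : 0 ≤ y := by linarith
  have hsq : Real.sqrt y ^ 2 = y := Real.sq_sqrt hy0
  have hs1 : 1 ≤ Real.sqrt y := by
    rw [Real.one_le_sqrt]
    exact hy
  have hs0 : 0 < Real.sqrt y := by linarith
  have hsy : Real.sqrt y ≤ y := by nlinarith
  have h4 := h3 (Real.sqrt y) a hs1 (by rw [hsq]; exact ha)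
  have h5 : ∀ i x0, B1 m (lam i) a (Real.sqrt y) δ x0 =
      Pool.Agent.H47.THN.B1 m (lam i) a y δ x0 := by
    intro i x0
    unfold B1 Pool.Agent.H47.THN.B1
    rw [hsq]
  simp only [h5] at h4
  refine h4.trans (ENNReal.ofReal_le_ofReal ?_)
  have hN1 : (1 : ℝ) ≤ N := by exact_mod_cast hN
  have hN0 : (0 : ℝ) < N := by linarith
  have hdi : (2 : ℝ) ≤ δ⁻¹ := by
    rw [le_inv_comm₀ (by norm_num) hδ]
    linarith
  have hl0 : 0 ≤ Real.log (Real.sqrt y * N * δ⁻¹) := by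
    apply Real.log_nonneg
    have e2 : (1 : ℝ) ≤ Real.sqrt y * N := one_le_mul_of_one_le_of_one_le hs1 hN1
    exact one_le_mul_of_one_le_of_one_le e2 (by linarith)
  have hl1 : Real.log (Real.sqrt y * N * δ⁻¹) ≤ Real.log (y * N * δ⁻¹) := by
    apply Real.log_le_log (by positivity)
    gcongr
  have h6 : (1 + Real.log (Real.sqrt y * N * δ⁻¹)) ^ K ≤ (1 + Real.log (y * N * δ⁻¹)) ^ K :=
    pow_le_pow_left₀ (by linarith) (by linarith) K
  rw [pow_mul, hsq]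
  have h7 : 0 ≤ C * δ ^ 2 * δ⁻¹ ^ (m ^ 2) * (N : ℝ) ^ ((m : ℝ) + ε) := by positivity
  have h8 : 0 ≤ y ^ m := by positivity
  have h9 : 0 ≤ (1 + δ ^ m * y / N) ^ m := by positivity
  exact mul_le_mul_of_nonneg_right (mul_le_mul_of_nonneg_right
    (mul_le_mul_of_nonneg_left h6 h7) h8) h9

/-- elementary form of the bound -/
lemma fin1 (m K : ℕ) {ε : ℝ} (hε : 0 < ε) :
    ∃ C : ℝ, 0 < C ∧ ∀ (Nr d X Ml : ℝ), 1 ≤ Nr → 2 ≤ d → 1 ≤ X →
      0 ≤ Ml → Ml ≤ 2 * (1 + Real.log X) →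
      Ml ^ 2 * (d ^ (m ^ 2) * Nr ^ ((m : ℝ) + ε) * ((1 + Real.log (X * Nr * d)) ^ K *
        (1 + d⁻¹ ^ m * X / Nr) ^ m)) ≤
        C * (Nr * d * X) ^ (2 * ε) * Nr ^ m * d ^ (m ^ 2) * (1 + d⁻¹ ^ m * X / Nr) ^ m := by
  obtain ⟨C1, hC1, hlog⟩ := Pool.Agent.H27.L1.H37.GHY.log_pow_le (K + 2) hε
  refine ⟨4 * C1, by positivity, ?_⟩
  intro Nr d X Ml hN hd hX hM0 hM
  have hN0 : 0 < Nr := by linarith
  have hd0 : 0 < d := by linarith
  have hX0 : 0 < X := by linarith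
  have hz : 1 ≤ Nr * d * X := by
    have h1 : 1 ≤ Nr * d := by nlinarith
    nlinarith
  have hz0 : 0 < Nr * d * X := by linarith
  have hXz : X ≤ Nr * d * X := by
    have h1 : 1 ≤ Nr * d := by nlinarith
    nlinarith
  have e0 : X * Nr * d = Nr * d * X := by ring
  rw [e0]
  obtain ⟨l, hl⟩ : ∃ l : ℝ, l = 1 + Real.log (Nr * d * X) := ⟨_, rfl⟩
  have hl1 : 1 ≤ l := by
    rw [hl]
    have := Real.log_nonneg hz
    linarith
  have h1 : Ml ^ 2 ≤ 4 * l ^ 2 := by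
    have h2 : Ml ≤ 2 * l := by
      refine hM.trans ?_
      rw [hl]
      have := Real.log_le_log hX0 hXz
      linarith
    calc Ml ^ 2 ≤ (2 * l) ^ 2 := pow_le_pow_left₀ hM0 h2 2
      _ = 4 * l ^ 2 := by ring
  have h2 : Ml ^ 2 * l ^ K ≤ 4 * C1 * (Nr * d * X) ^ ε := by
    calc Ml ^ 2 * l ^ K ≤ 4 * l ^ 2 * l ^ K := mul_le_mul_of_nonneg_right h1 (by positivity)
      _ = 4 * l ^ (K + 2) := by ring
      _ ≤ 4 * (C1 * (Nr * d * X) ^ ε) := by
          rw [hl]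
          exact mul_le_mul_of_nonneg_left (hlog _ hz) (by norm_num)
      _ = _ := by ring
  have h3 : Nr ^ ((m : ℝ) + ε) ≤ Nr ^ m * (Nr * d * X) ^ ε := by
    rw [Real.rpow_add hN0, Real.rpow_natCast]
    refine mul_le_mul_of_nonneg_left ?_ (by positivity)
    refine Real.rpow_le_rpow hN0.le ?_ hε.le
    have h4 : 1 ≤ d * X := by nlinarith
    nlinarith
  have h5 : 0 ≤ (1 + d⁻¹ ^ m * X / Nr) ^ m := by positivity
  rw [← hl]
  calc Ml ^ 2 * (d ^ (m ^ 2) * Nr ^ ((m : ℝ) + ε) * (l ^ K * (1 + d⁻¹ ^ m * X / Nr) ^ m))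
      = (Ml ^ 2 * l ^ K) * (Nr ^ ((m : ℝ) + ε) * (d ^ (m ^ 2) * (1 + d⁻¹ ^ m * X / Nr) ^ m)) := by
        ring
    _ ≤ (4 * C1 * (Nr * d * X) ^ ε) * ((Nr ^ m * (Nr * d * X) ^ ε) *
        (d ^ (m ^ 2) * (1 + d⁻¹ ^ m * X / Nr) ^ m)) := by
        refine mul_le_mul h2 ?_ (by positivity) (by positivity)
        exact mul_le_mul_of_nonneg_right h3 (by positivity)
    _ = 4 * C1 * ((Nr * d * X) ^ ε * (Nr * d * X) ^ ε) *
        Nr ^ m * d ^ (m ^ 2) * (1 + d⁻¹ ^ m * X / Nr) ^ m := by ring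
    _ = 4 * C1 * (Nr * d * X) ^ (2 * ε) * Nr ^ m * d ^ (m ^ 2) * (1 + d⁻¹ ^ m * X / Nr) ^ m := by
        rw [← Real.rpow_add hz0, show ε + ε = 2 * ε by ring]

open Pool.Agent.H27.L1.H11.GHY in
/-- the mean square of the truncated L-functions -/
theorem pf_DY1 : Pool.Agent.H47.THN.T_DY1 := by
  intro m ε hε C hC K
  obtain ⟨C2, hC2, hfin⟩ := fin1 m K hε
  refine ⟨2 ^ m * C * C2, by positivity, ?_⟩
  intro ι _ W lam N δ hN2' hδ0 hδ1 hWt hlt X hX1 τ
  obtain ⟨M, hM1, hM2, hM3⟩ := blocks hX1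
  have hd0 : 0 < δ⁻¹ := inv_pos.2 hδ0
  have hd2 : 2 ≤ δ⁻¹ := by
    rw [le_inv_comm₀ (by norm_num) hδ0]
    rw [one_div] at hδ1
    exact hδ1
  have hN2 : (1 : ℝ) ≤ N := by exact_mod_cast hN2'
  have hN0 : (0 : ℝ) < N := by linarith
  have hX0 : 0 < X := by linarith
  have hNd : 1 ≤ (N : ℝ) * δ⁻¹ := by nlinarith
  set Wt : ℝ := C * δ⁻¹ ^ (m ^ 2) * (N : ℝ) ^ ((m : ℝ) + ε) *
    ((1 + Real.log (X * N * δ⁻¹)) ^ K * (1 + δ ^ m * X / N) ^ m) with hWd
  let y : ℕ → ℝ := fun j => X / 2 ^ j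
  have hy1 : ∀ j < M, 1 ≤ y j := by
    intro j hj
    show 1 ≤ X / 2 ^ j
    rw [le_div_iff₀ (by positivity), one_mul]
    exact hM2 j hj
  have hyX : ∀ j, y j ≤ X := fun j => div_le_self hX0.le (one_le_pow₀ one_le_two)
  have hlog : ∀ z : ℝ, 1 ≤ z → 0 ≤ Real.log (z * N * δ⁻¹) := by
    intro z hz
    apply Real.log_nonneg
    rw [mul_assoc]
    nlinarith
  have hW0 : 0 ≤ Wt := by
    have := hlog X hX1
    positivity
  let G : ι → ℕ → ℝ → ENNReal := fun i j t =>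
    ENNReal.ofReal (‖DP m (lam i) (blk m τ (y j)) (y j) t‖ ^ 2)
  have hG : ∀ i j, Measurable (G i j) := by
    intro i j
    exact ((cont_DP m (lam i) (blk m τ (y j)) (y j)).norm.pow 2).measurable.ennreal_ofReal
  have hb : ∀ j < M, ∑ i, W i * ∫⁻ t in Set.Icc (-δ⁻¹) δ⁻¹, G i j t ≤
      ENNReal.ofReal (Wt * y j ^ m) := by
    intro j hj
    have hyj := hy1 j hj
    have hyj0 : 0 < y j := by linarith
    have h0 := hlt (y j) (blk m τ (y j)) hyj (coe_blk m τ hyj)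
    refine h0.trans (ENNReal.ofReal_le_ofReal ?_)
    have h1 : 0 ≤ Real.log (y j * N * δ⁻¹) := hlog _ hyj
    have hsX : y j ≤ X := hyX j
    have h2 : Real.log (y j * N * δ⁻¹) ≤ Real.log (X * N * δ⁻¹) := by
      apply Real.log_le_log (by positivity)
      gcongr
    have h3 : (1 + Real.log (y j * N * δ⁻¹)) ^ K ≤ (1 + Real.log (X * N * δ⁻¹)) ^ K :=
      pow_le_pow_left₀ (by linarith) (by linarith) K
    have h4 : (1 + δ ^ m * y j / N) ^ m ≤ (1 + δ ^ m * X / N) ^ m := by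
      gcongr
    have h5 : (1 + Real.log (y j * N * δ⁻¹)) ^ K * (1 + δ ^ m * y j / N) ^ m ≤
        (1 + Real.log (X * N * δ⁻¹)) ^ K * (1 + δ ^ m * X / N) ^ m := by
      refine mul_le_mul h3 h4 (by positivity) ?_
      have := hlog X hX1
      positivity
    calc C * δ⁻¹ ^ (m ^ 2) * (N : ℝ) ^ ((m : ℝ) + ε) *
          (1 + Real.log (y j * N * δ⁻¹)) ^ K *
          y j ^ m * (1 + δ ^ m * y j / N) ^ m
        = C * δ⁻¹ ^ (m ^ 2) * (N : ℝ) ^ ((m : ℝ) + ε) *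
          ((1 + Real.log (y j * N * δ⁻¹)) ^ K * (1 + δ ^ m * y j / N) ^ m) *
            y j ^ m := by ring
      _ ≤ Wt * y j ^ m := by
        refine mul_le_mul_of_nonneg_right ?_ (by positivity)
        exact mul_le_mul_of_nonneg_left h5 (by positivity)
  let cj : ℕ → ℝ := fun j => (y j / 2) ^ (-((m : ℝ) / 2))
  have hcj0 : ∀ j < M, 0 ≤ cj j := by
    intro j hj
    have := hy1 j hj
    exact Real.rpow_nonneg (by linarith) _
  have hcy : ∀ j < M, cj j ^ 2 * y j ^ m = 2 ^ m := by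
    intro j hj
    have hyj : 0 < y j := by
      have := hy1 j hj
      linarith
    have h1 : cj j ^ 2 = ((y j / 2) ^ m)⁻¹ := by
      show ((y j / 2) ^ (-((m : ℝ) / 2))) ^ 2 = _
      rw [← Real.rpow_natCast, ← Real.rpow_mul (by positivity), ← Real.rpow_natCast,
        ← Real.rpow_neg (by positivity)]
      congr 1
      push_cast
      ring
    rw [h1, div_pow, inv_div]
    have : y j ^ m ≠ 0 := (pow_pos hyj _).ne'
    field_simp
  have hpt : ∀ i t, ENNReal.ofReal (‖SD (lam i) X (t + τ)‖ ^ 2) ≤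
      ∑ j ∈ Finset.range M, ENNReal.ofReal ((M : ℝ) * cj j ^ 2) * G i j t := by
    intro i t
    have h1 : SD (lam i) X (t + τ) = ∑ j ∈ Finset.range M,
        ((cj j : ℝ) : ℂ) * DP m (lam i) (blk m τ (y j)) (y j) t := by
      unfold SD
      rw [steps' (fun n => lam i n * (n : ℂ) ^ (-(1 / 2 + ((t + τ : ℝ) : ℂ) * Complex.I)))
        hX0.le hM1]
      refine Finset.sum_congr rfl fun j hj => ?_
      exact block m (lam i) τ t (hy1 j (Finset.mem_range.1 hj))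
    have h2 : ‖SD (lam i) X (t + τ)‖ ≤ ∑ j ∈ Finset.range M,
        cj j * ‖DP m (lam i) (blk m τ (y j)) (y j) t‖ := by
      rw [h1]
      refine (norm_sum_le _ _).trans (le_of_eq ?_)
      refine Finset.sum_congr rfl fun j hj => ?_
      rw [norm_mul, Complex.norm_real, Real.norm_eq_abs,
        abs_of_nonneg (hcj0 j (Finset.mem_range.1 hj))]
    have h3 : ‖SD (lam i) X (t + τ)‖ ^ 2 ≤ ∑ j ∈ Finset.range M,
        ((M : ℝ) * cj j ^ 2) * ‖DP m (lam i) (blk m τ (y j)) (y j) t‖ ^ 2 := by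
      have h4 := pow_sum_le_card_mul_sum_pow (s := Finset.range M)
        (f := fun j => cj j * ‖DP m (lam i) (blk m τ (y j)) (y j) t‖)
        (fun j hj => mul_nonneg (hcj0 j (Finset.mem_range.1 hj)) (norm_nonneg _)) 1
      rw [Finset.card_range] at h4
      refine (pow_le_pow_left₀ (norm_nonneg _) h2 2).trans (h4.trans (le_of_eq ?_))
      rw [Finset.mul_sum]
      refine Finset.sum_congr rfl fun j _ => ?_
      ring
    refine (ENNReal.ofReal_le_ofReal h3).trans (le_of_eq ?_)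
    rw [ENNReal.ofReal_sum_of_nonneg]
    · refine Finset.sum_congr rfl fun j _ => ?_
      rw [ENNReal.ofReal_mul (by positivity)]
    · intro j _
      positivity
  calc ∑ i, W i * ∫⁻ t in Set.Icc (-δ⁻¹) δ⁻¹, ENNReal.ofReal (‖SD (lam i) X (t + τ)‖ ^ 2)
      ≤ ∑ i, W i * ∫⁻ t in Set.Icc (-δ⁻¹) δ⁻¹, ∑ j ∈ Finset.range M,
          ENNReal.ofReal ((M : ℝ) * cj j ^ 2) * G i j t :=
        Finset.sum_le_sum fun i _ => mul_le_mul' le_rfl (lintegral_mono fun t => hpt i t)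
    _ = ∑ i, ∑ j ∈ Finset.range M, ENNReal.ofReal ((M : ℝ) * cj j ^ 2) *
          (W i * ∫⁻ t in Set.Icc (-δ⁻¹) δ⁻¹, G i j t) := by
        refine Finset.sum_congr rfl fun i _ => ?_
        rw [lintegral_finsetSum _ fun j _ => (hG i j).const_mul _, Finset.mul_sum]
        refine Finset.sum_congr rfl fun j _ => ?_
        rw [lintegral_const_mul' _ _ ENNReal.ofReal_ne_top]
        ring
    _ = ∑ j ∈ Finset.range M, ENNReal.ofReal ((M : ℝ) * cj j ^ 2) *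
          ∑ i, W i * ∫⁻ t in Set.Icc (-δ⁻¹) δ⁻¹, G i j t := by
        rw [Finset.sum_comm]
        refine Finset.sum_congr rfl fun j _ => ?_
        rw [Finset.mul_sum]
    _ ≤ ∑ j ∈ Finset.range M, ENNReal.ofReal ((M : ℝ) * cj j ^ 2) *
          ENNReal.ofReal (Wt * y j ^ m) :=
        Finset.sum_le_sum fun j hj => mul_le_mul' le_rfl (hb j (Finset.mem_range.1 hj))
    _ = ∑ j ∈ Finset.range M, ENNReal.ofReal ((M : ℝ) * 2 ^ m * Wt) := by
        refine Finset.sum_congr rfl fun j hj => ?_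
        rw [← ENNReal.ofReal_mul (by positivity)]
        congr 1
        rw [← hcy j (Finset.mem_range.1 hj)]
        ring
    _ = ENNReal.ofReal ((M : ℝ) ^ 2 * 2 ^ m * Wt) := by
        rw [Finset.sum_const, Finset.card_range, nsmul_eq_mul, ← ENNReal.ofReal_natCast,
          ← ENNReal.ofReal_mul (by positivity)]
        congr 1
        ring
    _ ≤ ENNReal.ofReal (2 ^ m * C * C2 * ((N : ℝ) * δ⁻¹ * X) ^ (2 * ε) *
          (N : ℝ) ^ m * δ⁻¹ ^ (m ^ 2) * (1 + δ ^ m * X / N) ^ m) := by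
        apply ENNReal.ofReal_le_ofReal
        have h1 := hfin N δ⁻¹ X M hN2 hd2 hX1 (Nat.cast_nonneg _) hM3
        rw [inv_inv] at h1
        calc (M : ℝ) ^ 2 * 2 ^ m * Wt
            = 2 ^ m * C * ((M : ℝ) ^ 2 * (δ⁻¹ ^ (m ^ 2) * (N : ℝ) ^ ((m : ℝ) + ε) *
              ((1 + Real.log (X * N * δ⁻¹)) ^ K * (1 + δ ^ m * X / N) ^ m))) := by
              rw [hWd]
              ring
          _ ≤ 2 ^ m * C * (C2 * ((N : ℝ) * δ⁻¹ * X) ^ (2 * ε) *
              (N : ℝ) ^ m * δ⁻¹ ^ (m ^ 2) * (1 + δ ^ m * X / N) ^ m) :=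
              mul_le_mul_of_nonneg_left h1 (by positivity)
          _ = _ := by ring

end Pool.Agent.H23.THN
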